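import Mathlib

/-!
Helper material for `S03052` (negation of the frozen statement of `MP_cacfbf_al`):
the Heisenberg Lie 3-algebra over `ZMod 3`, with `z^[3] = z`.
-/

set_option autoImplicit false

namespace Pool.Agent.Run7.h40.Heis3

/-- Underlying space of the Heisenberg algebra over `F_3`. -/
def H : Type := ZMod 3 × ZMod 3 × ZMod 3

instance : AddCommGroup H := inferInstanceAs (AddCommGroup (ZMod 3 × ZMod 3 × ZMod 3))
instance : Module (ZMod 3) H := inferInstanceAs (Module (ZMod 3) (ZMod 3 × ZMod 3 × ZMod 3))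
instance : DecidableEq H := inferInstanceAs (DecidableEq (ZMod 3 × ZMod 3 × ZMod 3))
instance : Fintype H := inferInstanceAs (Fintype (ZMod 3 × ZMod 3 × ZMod 3))

def mk (a b c : ZMod 3) : H := (a, b, c)

theorem ext' {u v : H} (h1 : u.1 = v.1) (h2 : u.2.1 = v.2.1) (h3 : u.2.2 = v.2.2) : u = v :=
  Prod.ext h1 (Prod.ext h2 h3)

@[simp] theorem add_1 (u v : H) : (u + v).1 = u.1 + v.1 := rfl
@[simp] theorem add_21 (u v : H) : (u + v).2.1 = u.2.1 + v.2.1 := rfl
@[simp] theorem add_22 (u v : H) : (u + v).2.2 = u.2.2 + v.2.2 := rfl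
@[simp] theorem smul_1 (a : ZMod 3) (u : H) : (a • u).1 = a * u.1 := rfl
@[simp] theorem smul_21 (a : ZMod 3) (u : H) : (a • u).2.1 = a * u.2.1 := rfl
@[simp] theorem smul_22 (a : ZMod 3) (u : H) : (a • u).2.2 = a * u.2.2 := rfl
@[simp] theorem zero_1 : (0 : H).1 = 0 := rfl
@[simp] theorem zero_21 : (0 : H).2.1 = 0 := rfl
@[simp] theorem zero_22 : (0 : H).2.2 = 0 := rfl
@[simp] theorem mk_1 (a b c : ZMod 3) : (mk a b c).1 = a := rfl
@[simp] theorem mk_21 (a b c : ZMod 3) : (mk a b c).2.1 = b := rfl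
@[simp] theorem mk_22 (a b c : ZMod 3) : (mk a b c).2.2 = c := rfl

instance : Bracket H H := ⟨fun u v => mk 0 0 (u.1 * v.2.1 - v.1 * u.2.1)⟩

@[simp] theorem lie_1 (u v : H) : (⁅u, v⁆ : H).1 = 0 := rfl
@[simp] theorem lie_21 (u v : H) : (⁅u, v⁆ : H).2.1 = 0 := rfl
@[simp] theorem lie_22 (u v : H) : (⁅u, v⁆ : H).2.2 = u.1 * v.2.1 - v.1 * u.2.1 := rfl

instance : LieRing H where
  add_lie u v w := ext' (by simp) (by simp) (by simp; ring)
  lie_add u v w := ext' (by simp) (by simp) (by simp; ring)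
  lie_self u := ext' (by simp) (by simp) (by simp)
  leibniz_lie u v w := ext' (by simp) (by simp) (by simp)

instance : LieAlgebra (ZMod 3) H where
  lie_smul t u v := ext' (by simp) (by simp) (by simp; ring)

/-- the 3-map -/
def f (u : H) : H := mk 0 0 u.2.2

@[simp] theorem f_1 (u : H) : (f u).1 = 0 := rfl
@[simp] theorem f_21 (u : H) : (f u).2.1 = 0 := rfl
@[simp] theorem f_22 (u : H) : (f u).2.2 = u.2.2 := rfl

theorem f_smul (a : ZMod 3) (u : H) : f (a • u) = a ^ 3 • f u := by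
  have h : ∀ a : ZMod 3, a ^ 3 = a := by decide
  refine ext' (by simp) (by simp) ?_
  simp [h]

theorem f_add (u v : H) : f (u + v) = f u + f v := ext' (by simp) (by simp) (by simp)

theorem lie_f (u v : H) : ⁅f u, v⁆ = 0 := ext' (by simp) (by simp) (by simp)

theorem lie_lie (u v w : H) : ⁅u, ⁅v, w⁆⁆ = 0 := ext' (by simp) (by simp) (by simp)

theorem ad_cube (u v : H) : (LieAlgebra.ad (ZMod 3) H u ^ 3) v = ⁅f u, v⁆ := by
  rw [lie_f]
  simp [pow_succ, lie_lie]

end Pool.Agent.Run7.h40.Heis3
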