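import Pool.Agent.Run7.h40.Heis3

/-!
Helper material for `S03052`: algebra in the restricted enveloping algebra.
-/

set_option autoImplicit false

namespace Pool.Agent.Run7.h40.Heis3

open Matrix

/-- In a ring of characteristic 3, if `⁅u,v⁆ = u*v - v*u` commutes with `u` and `v` then
`(u+v)^3 = u^3 + v^3`. -/
theorem cube_add {A : Type*} [Ring A] (h3 : (3 : A) = 0) (u v : A)
    (h1 : u * (u * v - v * u) = (u * v - v * u) * u)
    (h2 : v * (u * v - v * u) = (u * v - v * u) * v) :
    (u + v) ^ 3 - u ^ 3 - v ^ 3 = 0 := by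
  have e1 : (u + v) ^ 3 - u ^ 3 - v ^ 3 =
      (u * (u * v - v * u) - (u * v - v * u) * u) - (v * (u * v - v * u) - (u * v - v * u) * v)
       + 3 * (u * v * u) + 3 * (v * u * v) := by
    noncomm_ring
  rw [e1, h1, h2, h3]
  simp

/-- The data of an algebra over `F_3` with the Heisenberg relations. -/
structure Rels (A : Type*) [Ring A] (x y z : A) : Prop where
  h3 : (3 : A) = 0
  xy : x * y = y * x + z
  zx : z * x = x * z
  zy : z * y = y * z
  x3 : x ^ 3 = 0
  y3 : y ^ 3 = 0
  z3 : z ^ 3 = z

variable {A : Type*} [Ring A] {x y z : A}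

/-- the central idempotent belonging to the eigenvalue `1` of `z` -/
def eps (z : A) : A := -(z * z + z)

/-- the primitive idempotent -/
def aa (x y z : A) : A := -(eps z * (x * x * (y * y)))

theorem two_eq (h3 : (3 : A) = 0) : (2 : A) = -1 := by
  have : (2 : A) + 1 = 0 := by rw [← h3]; norm_num
  exact eq_neg_of_add_eq_zero_left this

theorem eps_mul_z (R : Rels A x y z) : eps z * z = eps z := by
  have h : z * z * z = z := by
    have := R.z3; rwa [pow_succ, pow_two] at this
  unfold eps
  rw [neg_mul, add_mul, h]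
  abel

theorem eps_mul_eps (R : Rels A x y z) : eps z * eps z = eps z := by
  have h1 := eps_mul_z R
  have h2 : eps z * eps z = -(eps z * z * z + eps z * z) := by
    conv_lhs => rw [show eps z * eps z = eps z * (-(z * z + z)) from rfl]
    noncomm_ring
  rw [h2, h1, h1]
  have : -(eps z + eps z) = -(2 : A) * eps z := by noncomm_ring
  rw [this, two_eq R.h3]
  simp

theorem eps_comm_x (R : Rels A x y z) : eps z * x = x * eps z := by
  unfold eps
  have h := R.zx
  have h2 : z * z * x = x * (z * z) := by
    rw [mul_assoc, h, ← mul_assoc, h, mul_assoc]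
  rw [neg_mul, add_mul, h2, h, mul_neg, mul_add]

theorem eps_comm_y (R : Rels A x y z) : eps z * y = y * eps z := by
  unfold eps
  have h := R.zy
  have h2 : z * z * y = y * (z * z) := by
    rw [mul_assoc, h, ← mul_assoc, h, mul_assoc]
  rw [neg_mul, add_mul, h2, h, mul_neg, mul_add]

theorem aa_mul_y (R : Rels A x y z) : aa x y z * y = 0 := by
  have h : y * y * y = 0 := by
    have := R.y3; rwa [pow_succ, pow_two] at this
  unfold aa
  rw [neg_mul, mul_assoc, mul_assoc, h]
  simp

theorem x_mul_aa (R : Rels A x y z) : x * aa x y z = 0 := by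
  have h : x * x * x = 0 := by
    have := R.x3; rwa [pow_succ, pow_two] at this
  unfold aa
  rw [mul_neg, ← mul_assoc, ← eps_comm_x R, mul_assoc, ← mul_assoc x, ← mul_assoc x, h]
  simp

theorem z_comm_yy (R : Rels A x y z) : x * x * (y * y) * z = z * (x * x * (y * y)) := by
  have h1 : Commute z x := R.zx
  have h2 : Commute z y := R.zy
  exact ((h1.mul_right h1).mul_right (h2.mul_right h2)).eq.symm

theorem aa_mul_z (R : Rels A x y z) : aa x y z * z = aa x y z := by
  unfold aa
  rw [neg_mul, mul_assoc, z_comm_yy R, ← mul_assoc (eps z), eps_mul_z R]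

theorem eps_comm_z (z : A) : eps z * z = z * eps z := by
  unfold eps
  noncomm_ring

theorem aa_mul_eps (R : Rels A x y z) : aa x y z * eps z = aa x y z := by
  have h := aa_mul_z R
  have : aa x y z * eps z = -(aa x y z * z * z + aa x y z * z) := by
    conv_lhs => rw [show aa x y z * eps z = aa x y z * (-(z * z + z)) from rfl]
    noncomm_ring
  rw [this, h, h]
  have : -(aa x y z + aa x y z) = -(2 : A) * aa x y z := by noncomm_ring
  rw [this, two_eq R.h3]
  simp

theorem aa_xy (R : Rels A x y z) : aa x y z * (x * y) = aa x y z := by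
  rw [R.xy, mul_add, ← mul_assoc, aa_mul_y R, aa_mul_z R]
  simp

theorem aa_xxyy (R : Rels A x y z) : aa x y z * (x * x * (y * y)) = -aa x y z := by
  have h1 : x * x * (y * y) = x * y * (x * y) + x * z * y := by
    calc x * x * (y * y) = x * (x * y) * y := by noncomm_ring
      _ = x * (y * x + z) * y := by rw [R.xy]
      _ = x * y * (x * y) + x * z * y := by noncomm_ring
  have h2 : x * z * y = z * (x * y) := by
    rw [← R.zx, mul_assoc]
  rw [h1, mul_add, ← mul_assoc, aa_xy R, aa_xy R, h2, ← mul_assoc, aa_mul_z R, aa_xy R]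
  have : aa x y z + aa x y z = (2 : A) * aa x y z := by noncomm_ring
  rw [this, two_eq R.h3]
  simp

theorem aa_mul_aa (R : Rels A x y z) : aa x y z * aa x y z = aa x y z := by
  have h : aa x y z * aa x y z = -(aa x y z * eps z * (x * x * (y * y))) := by
    conv_lhs => rw [show aa x y z * aa x y z = aa x y z * (-(eps z * (x * x * (y * y)))) from rfl]
    noncomm_ring
  rw [h, aa_mul_eps R, aa_xxyy R, neg_neg]

/-- The four matrix units: the (non-unital) algebra map from `M_2(F_3)`. -/
def φfun [Algebra (ZMod 3) A] (x y z : A) (M : Matrix (Fin 2) (Fin 2) (ZMod 3)) : A :=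
  M 0 0 • aa x y z + M 0 1 • (aa x y z * x) + M 1 0 • (y * aa x y z)
    + M 1 1 • (y * aa x y z * x)

section
variable [Algebra (ZMod 3) A]

theorem φfun_mul (R : Rels A x y z) (M N : Matrix (Fin 2) (Fin 2) (ZMod 3)) :
    φfun x y z (M * N) = φfun x y z M * φfun x y z N := by
  have hay := aa_mul_y R
  have hxa := x_mul_aa R
  have haa := aa_mul_aa R
  have haxy := aa_xy R
  unfold φfun
  set a := aa x y z with ha
  clear_value a
  have p1 : a * (a * x) = a * x := by rw [← mul_assoc, haa]
  have p2 : a * (y * a) = 0 := by rw [← mul_assoc, hay, zero_mul]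
  have p3 : a * (y * a * x) = 0 := by rw [← mul_assoc, ← mul_assoc, hay, zero_mul, zero_mul]
  have p4 : a * x * a = 0 := by rw [mul_assoc, hxa, mul_zero]
  have p5 : a * x * (a * x) = 0 := by rw [← mul_assoc, p4, zero_mul]
  have p6 : a * x * (y * a) = a := by
    rw [← mul_assoc, mul_assoc a x y, haxy, haa]
  have p7 : a * x * (y * a * x) = a * x := by rw [← mul_assoc, p6]
  have p8 : y * a * a = y * a := by rw [mul_assoc, haa]
  have p9 : y * a * (a * x) = y * a * x := by rw [← mul_assoc, p8]
  have p10 : y * a * (y * a) = 0 := by rw [mul_assoc, p2, mul_zero]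
  have p11 : y * a * (y * a * x) = 0 := by rw [mul_assoc, p3, mul_zero]
  have p12 : y * a * x * a = 0 := by rw [mul_assoc, hxa, mul_zero]
  have p13 : y * a * x * (a * x) = 0 := by rw [← mul_assoc, p12, zero_mul]
  have p14 : y * a * x * (y * a) = y * a := by
    rw [mul_assoc y a x, mul_assoc y, p6]
  have p15 : y * a * x * (y * a * x) = y * a * x := by
    rw [← mul_assoc, p14]
  simp only [add_mul, mul_add, smul_mul_smul_comm, haa, p1, p2, p3, p4, p5, p6, p7, p8, p9, p10,
    p11, p12, p13, p14, p15, smul_zero, add_zero, zero_add, Matrix.mul_apply, Fin.sum_univ_two,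
    add_smul]
  abel

/-- The map as a non-unital algebra homomorphism. -/
def φ (R : Rels A x y z) : Matrix (Fin 2) (Fin 2) (ZMod 3) →ₙₐ[ZMod 3] A where
  toFun := φfun x y z
  map_smul' c M := by
    simp [φfun, smul_add, mul_smul]
  map_zero' := by simp [φfun]
  map_add' M N := by
    simp only [φfun, Matrix.add_apply, add_smul]
    abel
  map_mul' := φfun_mul R

end

/-- the commutator of the two off-diagonal units is not nilpotent -/
theorem comm_pow (R : Rels A x y z) (t : ℕ) (h0 : aa x y z ≠ 0) :
    ((aa x y z * x) * (y * aa x y z) - (y * aa x y z) * (aa x y z * x)) ^ t ≠ 0 := by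
  intro h
  apply h0
  have hay := aa_mul_y R
  have hxa := x_mul_aa R
  have haa := aa_mul_aa R
  have haxy := aa_xy R
  set a := aa x y z with ha
  clear_value a
  have hc : ((a * x) * (y * a) - (y * a) * (a * x)) * a = a := by
    rw [sub_mul]
    have q1 : a * x * (y * a) = a := by
      rw [← mul_assoc, mul_assoc a x y, haxy, haa]
    have q2 : y * a * (a * x) * a = 0 := by
      rw [mul_assoc, mul_assoc a x a, hxa]; simp
    rw [q1, q2, haa, sub_zero]
  have key : ∀ t : ℕ, ((a * x) * (y * a) - (y * a) * (a * x)) ^ t * a = a := by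
    intro t
    induction t with
    | zero => simp
    | succ n ih => rw [pow_succ, mul_assoc, hc, ih]
  have := key t
  rw [h, zero_mul] at this
  exact this.symm

end Pool.Agent.Run7.h40.Heis3
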