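import Pool.Agent.Run7.h40.Heis3Alg

/-!
Helper material for `S03052`: the restricted enveloping algebra of the Heisenberg algebra.
-/

set_option autoImplicit false

namespace Pool.Agent.Run7.h40.Heis3

open Matrix

attribute [local instance 100] LieRing.ofAssociativeRing

abbrev U : Type := UniversalEnvelopingAlgebra (ZMod 3) H
abbrev io : H →ₗ⁅ZMod 3⁆ U := UniversalEnvelopingAlgebra.ι (ZMod 3)

abbrev rel : U → U → Prop := fun a b =>
  ∃ x : H, a = UniversalEnvelopingAlgebra.ι (ZMod 3) x ^ 3 ∧
    b = UniversalEnvelopingAlgebra.ι (ZMod 3) (f x)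

/-- the restricted enveloping algebra -/
abbrev A : Type := RingQuot rel

abbrev q : U →ₐ[ZMod 3] A := RingQuot.mkAlgHom (ZMod 3) rel

theorem io_lie (u v : H) : io ⁅u, v⁆ = io u * io v - io v * io u := by
  rw [LieHom.map_lie, LieRing.of_associative_ring_bracket]

theorem three_U : (3 : U) = 0 := by
  have : (3 : U) = algebraMap (ZMod 3) U 3 := (map_ofNat (algebraMap (ZMod 3) U) 3).symm
  rw [this, show (3 : ZMod 3) = 0 from by decide, map_zero]

theorem three_A : (3 : A) = 0 := by
  have : (3 : A) = q 3 := (map_ofNat q 3).symm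
  rw [this, three_U, map_zero]

theorem jacobson (u v : H) :
    UniversalEnvelopingAlgebra.ι (ZMod 3) (f (u + v)) - UniversalEnvelopingAlgebra.ι (ZMod 3) (f u)
        - UniversalEnvelopingAlgebra.ι (ZMod 3) (f v)
      = (UniversalEnvelopingAlgebra.ι (ZMod 3) u + UniversalEnvelopingAlgebra.ι (ZMod 3) v) ^ 3
        - UniversalEnvelopingAlgebra.ι (ZMod 3) u ^ 3
        - UniversalEnvelopingAlgebra.ι (ZMod 3) v ^ 3 := by
  have h1 : io u * (io u * io v - io v * io u) - (io u * io v - io v * io u) * io u = 0 := by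
    rw [← io_lie, ← io_lie, lie_lie, map_zero]
  have h2 : io v * (io u * io v - io v * io u) - (io u * io v - io v * io u) * io v = 0 := by
    rw [← io_lie, ← io_lie, lie_lie, map_zero]
  rw [cube_add three_U (io u) (io v) (sub_eq_zero.mp h1) (sub_eq_zero.mp h2), f_add, map_add]
  abel

def X : A := q (io (mk 1 0 0))
def Y : A := q (io (mk 0 1 0))
def Z : A := q (io (mk 0 0 1))

theorem q_cube (u : H) : q (io u) ^ 3 = q (io (f u)) := by
  rw [← map_pow]
  exact RingQuot.mkAlgHom_rel (ZMod 3) ⟨u, rfl, rfl⟩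

theorem rels : Rels A X Y Z where
  h3 := three_A
  xy := by
    have h : ⁅mk 1 0 0, mk 0 1 0⁆ = mk 0 0 1 := by decide
    have := io_lie (mk 1 0 0) (mk 0 1 0)
    rw [h] at this
    have h2 := congrArg q this
    rw [map_sub, map_mul, map_mul] at h2
    unfold X Y Z
    rw [h2]; abel
  zx := by
    have h : ⁅mk 0 0 1, mk 1 0 0⁆ = 0 := by decide
    have := io_lie (mk 0 0 1) (mk 1 0 0)
    rw [h, map_zero] at this
    have h2 := congrArg q this
    rw [map_sub, map_mul, map_mul, map_zero] at h2
    exact sub_eq_zero.mp h2.symm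
  zy := by
    have h : ⁅mk 0 0 1, mk 0 1 0⁆ = 0 := by decide
    have := io_lie (mk 0 0 1) (mk 0 1 0)
    rw [h, map_zero] at this
    have h2 := congrArg q this
    rw [map_sub, map_mul, map_mul, map_zero] at h2
    exact sub_eq_zero.mp h2.symm
  x3 := by
    unfold X
    rw [q_cube, show f (mk 1 0 0) = 0 from by decide, map_zero, map_zero]
  y3 := by
    unfold Y
    rw [q_cube, show f (mk 0 1 0) = 0 from by decide, map_zero, map_zero]
  z3 := by
    unfold Z
    rw [q_cube, show f (mk 0 0 1) = mk 0 0 1 from by decide]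

/-! ### The representation on `F_3[t]/(t^3)` -/

def repM (u : H) : Matrix (Fin 3) (Fin 3) (ZMod 3) :=
  !![u.2.2, u.1, 0; u.2.1, u.2.2, 2 * u.1; 0, u.2.1, u.2.2]

theorem rep_lie (u v : H) : repM ⁅u, v⁆ = repM u * repM v - repM v * repM u := by
  have h3 : (3 : ZMod 3) = 0 := by decide
  ext i j
  fin_cases i <;> fin_cases j <;>
    simp [repM, Matrix.mul_apply, Fin.sum_univ_three] <;>
    first
    | ring1
    | linear_combination (u.1 * v.2.1 - v.1 * u.2.1) * h3
    | linear_combination (-(u.1 * v.2.1 - v.1 * u.2.1)) * h3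
    | linear_combination (2 * (u.1 * v.2.1 - v.1 * u.2.1)) * h3

theorem rep_cube (u : H) : repM u ^ 3 = repM (f u) := by
  revert u; decide

/-- the representation as a Lie homomorphism -/
def repL : H →ₗ⁅ZMod 3⁆ Matrix (Fin 3) (Fin 3) (ZMod 3) where
  toFun := repM
  map_add' u v := by
    ext i j
    fin_cases i <;> fin_cases j <;> simp [repM] <;> ring1
  map_smul' a u := by
    ext i j
    fin_cases i <;> fin_cases j <;> simp [repM] <;> ring1
  map_lie' {u v} := by
    rw [LieRing.of_associative_ring_bracket]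
    exact rep_lie u v

def repU : U →ₐ[ZMod 3] Matrix (Fin 3) (Fin 3) (ZMod 3) :=
  UniversalEnvelopingAlgebra.lift (ZMod 3) repL

theorem repU_io (u : H) : repU (io u) = repM u :=
  UniversalEnvelopingAlgebra.lift_ι_apply (ZMod 3) repL u

def repA : A →ₐ[ZMod 3] Matrix (Fin 3) (Fin 3) (ZMod 3) :=
  RingQuot.liftAlgHom (ZMod 3) ⟨repU, by
    rintro a b ⟨u, rfl, rfl⟩
    have h1 : repU (io u ^ 3) = repM u ^ 3 := by rw [map_pow, repU_io]
    have h2 : repU (io (f u)) = repM (f u) := repU_io _
    exact h1.trans ((rep_cube u).trans h2.symm)⟩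

theorem repA_q (u : H) : repA (q (io u)) = repM u := by
  have : repA (q (io u)) = repU (io u) := by
    unfold repA
    exact RingQuot.liftAlgHom_mkAlgHom_apply (ZMod 3) repU _ _
  rw [this, repU_io]

theorem aa_ne : aa X Y Z ≠ 0 := by
  intro h
  have h1 := congrArg repA h
  have hX : repA X = repM (mk 1 0 0) := repA_q _
  have hY : repA Y = repM (mk 0 1 0) := repA_q _
  have hZ : repA Z = repM (mk 0 0 1) := repA_q _
  simp only [aa, eps, map_neg, map_mul, map_add, map_zero, hX, hY, hZ] at h1
  revert h1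
  decide

end Pool.Agent.Run7.h40.Heis3
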