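import Mathlib

/-!
Helper material for `S03052`: the standard identity of degree four on `2 × 2` matrices.
-/

set_option autoImplicit false

namespace Pool.Agent.Run7.h40.S4

open Matrix

/-- sums over `Perm (Fin (n+1))` -/
theorem sum_perm_succ {M : Type*} [AddCommMonoid M] (n : ℕ) (g : Equiv.Perm (Fin (n + 1)) → M) :
    ∑ σ : Equiv.Perm (Fin (n + 1)), g σ
      = ∑ p : Fin (n + 1), ∑ e : Equiv.Perm (Fin n), g (Equiv.Perm.decomposeFin.symm (p, e)) := by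
  rw [← Fintype.sum_prod_type' (f := fun p e => g (Equiv.Perm.decomposeFin.symm (p, e)))]
  exact (Equiv.sum_comp Equiv.Perm.decomposeFin.symm g).symm

theorem s4_expand {R : Type*} [Ring R] (M : Fin 4 → R) :
    ∑ σ : Equiv.Perm (Fin 4), ((Equiv.Perm.sign σ : ℤˣ) : ℤ) •
      (List.ofFn fun i => M (σ i)).prod =
      (M 0 * M 1 - M 1 * M 0) * (M 2 * M 3 - M 3 * M 2)
      + (M 2 * M 3 - M 3 * M 2) * (M 0 * M 1 - M 1 * M 0)
      - (M 0 * M 2 - M 2 * M 0) * (M 1 * M 3 - M 3 * M 1)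
      - (M 1 * M 3 - M 3 * M 1) * (M 0 * M 2 - M 2 * M 0)
      + (M 0 * M 3 - M 3 * M 0) * (M 1 * M 2 - M 2 * M 1)
      + (M 1 * M 2 - M 2 * M 1) * (M 0 * M 3 - M 3 * M 0) := by
  have a1 : (Equiv.swap (0 : Fin 3) 1) 2 = 2 := by decide
  have a2 : (Equiv.swap (0 : Fin 3) 2) 1 = 1 := by decide
  have b1 : (Equiv.swap (0 : Fin 4) 1) 2 = 2 := by decide
  have b2 : (Equiv.swap (0 : Fin 4) 1) 3 = 3 := by decide
  have b3 : (Equiv.swap (0 : Fin 4) 2) 1 = 1 := by decide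
  have b4 : (Equiv.swap (0 : Fin 4) 2) 3 = 3 := by decide
  have b5 : (Equiv.swap (0 : Fin 4) 3) 1 = 1 := by decide
  have b6 : (Equiv.swap (0 : Fin 4) 3) 2 = 2 := by decide
  have c1 : (1 : Fin 3).succ = (2 : Fin 4) := by decide
  have c2 : (2 : Fin 3).succ = (3 : Fin 4) := by decide
  simp only [sum_perm_succ, Fin.sum_univ_succ, Fin.sum_univ_zero]
  simp [Equiv.Perm.decomposeFin.symm_sign, List.ofFn_succ, a1, a2, b1, b2, b3, b4, b5, b6, c1, c2]
  noncomm_ring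

theorem s4_zero {R : Type*} [CommRing R] (M : Fin 4 → Matrix (Fin 2) (Fin 2) R) :
    ∑ σ : Equiv.Perm (Fin 4), ((Equiv.Perm.sign σ : ℤˣ) : ℤ) •
      (List.ofFn fun i => M (σ i)).prod = 0 := by
  rw [s4_expand]
  ext i j
  fin_cases i <;> fin_cases j <;>
    simp [Matrix.mul_apply, Fin.sum_univ_two] <;> ring

end Pool.Agent.Run7.h40.S4
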